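import Pool.Agent.Z15P.Z15.W.Defs
import Pool.Agent.Z15P.Z15.S.Stm

/-!
Statements of lemmas (tasks of helper15, round 4: systems of forms, cycles of all dimensions).
-/

set_option autoImplicit false

open FF FF.PP MvPolynomial Pool.Agent.Z15P.Z15.H Pool.Agent.Z15P.Z15.J Pool.Agent.Z15P.Z15.J.Stm Pool.Agent.Z15P.Z15.S

namespace Pool.Agent.Z15P.Z15.W

/-- the monomials of `Hf` -/
def W_SUPP : Prop :=
  ∀ (k K1 ι ν : Type) [Field k] [Field K1] [Algebra k K1] [Fintype ν] (F : MvPolynomial ι k)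
    (z : ι → K1) (φ : ν → ι → K1) (j : ℕ) (S : Finset ι) (n : {i // i ∈ S} → ν),
    Function.Injective n → (∀ i ∈ S, z i = 0) → (∀ i, φ (n i) i.1 = 1) →
    (∀ i x, x ≠ n i → φ x i.1 = 0) → (∀ i ∉ S, ∀ i', φ (n i') i = 0) →
    ∀ τ ∈ (Hf F z φ j).support, ∃ μ ∈ F.support, ∀ i, τ (n i) = μ i.1

/-- the system `HY` satisfies the hypotheses -/
def W_SYSY : Prop :=
  ∀ (K : Type) [Field K] [Infinite K] (ι α : Type) [Fintype ι] [Fintype α]
    (F : α → MvPolynomial ι K) (d : α → ℕ) (b : ι → ℕ) (s m : ℕ), Sys F d b (s + 1) m →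
    ∀ (K1 : Type) [Field K1] [Algebra K K1] (z C : ι → K1), Supp (bX b s) z →
      (∀ i ∈ bY b s, C i = 0) →
      Sys (HY F d (mu d m) (bY b s) z C) (dY d (mu d m))
        (Sum.elim (fun i => b i.1) fun _ => s + 1) s m

/-- the system `HS` satisfies the hypotheses -/
def W_SYSS : Prop :=
  ∀ (K : Type) [Field K] [Infinite K] (ι α : Type) [Fintype ι] [Fintype α]
    (F : α → MvPolynomial ι K) (d : α → ℕ) (b : ι → ℕ) (s m : ℕ), Sys F d b (s + 1) m →
    ∀ (p : ι → K), (∀ i, b i ≠ 0 → p i = 0) →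
      Sys (HS F d (mu d m) (bS b (s + 1)) p) (dS d (mu d m)) (fun i => b i.1 - 1) s m

/-- the families of lines through `z` -/
def W_GOODY : Prop :=
  ∀ (K : Type) [Field K] [Infinite K] (ι α : Type) [Fintype ι] [Fintype α]
    (F : α → MvPolynomial ι K) (d m : α → ℕ) (X Y : Finset ι), (∀ a, (F a).IsHomogeneous (d a)) →
    (∀ a, m a < d a) → Disjoint X Y → (∀ a, Mix (F a) X Y (m a)) →
    ∀ (K1 : Type) [Field K1] [Algebra K K1] (z C : ι → K1), LinearIndependent K1 ![z, C] →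
      Supp X z → (∀ i ∈ Y, C i = 0) → (∀ a, ∀ j, j + m a < d a → co (F a) z C j = 0) →
      GoodS F (HY F d m Y z C) z (phiY Y C) ∧
      (∀ (κ : Type) [Field κ] [Algebra K1 κ] (y : ι → κ) (v : κ), Supp Y y →
        lm (phiY Y C) (Sum.elim (fun i => y i.1) fun _ => v) =
          fun i => v * algebraMap K1 κ (C i) + y i) ∧
      (∀ (κ : Type) [Field κ] [Algebra K1 κ] [Algebra K κ] [IsScalarTower K K1 κ] (y : ι → κ) (v : κ),
        Supp Y y → ((∀ x, aeval (Sum.elim (fun i : {i // i ∈ Y} => y i.1) fun _ => v)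
            (HY F d m Y z C x) = 0) ↔
          ∀ a, Vanish (F a) (cst κ z) (fun i => v * algebraMap K1 κ (C i) + y i)))

/-- the lines through `p` with direction in the coordinate subspace `S` -/
def W_GOODS : Prop :=
  ∀ (K : Type) [Field K] [Infinite K] (ι α : Type) [Fintype ι] [Fintype α]
    (F : α → MvPolynomial ι K) (d m : α → ℕ) (S Y : Finset ι), (∀ a, (F a).IsHomogeneous (d a)) →
    (∀ a, m a < d a) → Disjoint S Y → (∀ a, Mix (F a) S Y (m a)) →
    ∀ (p : ι → K), p ≠ 0 → Supp Y p → (∀ a, eval p (F a) = 0) →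
      GoodS F (HS F d m S p) p (phiS K S) ∧
      (∀ (κ : Type) [Field κ] [Algebra K κ] (w : ι → κ), Supp S w →
        lm (phiS K S) (fun i => w i.1) = w) ∧
      (∀ (κ : Type) [Field κ] [Algebra K κ] (w : ι → κ), Supp S w →
        ((∀ x, aeval (fun i : {i // i ∈ S} => w i.1) (HS F d m S p x) = 0) ↔
          ∀ a, Vanish (F a) (cst κ p) w))

/-- it suffices to consider lines through points `z` of `X` such that `F a = 0` contains the line
through `z` and `p` -/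
def W_SB : Prop :=
  ∀ (K : Type) [Field K] [Infinite K] (ι α : Type) [Fintype ι] [Fintype α]
    (F : α → MvPolynomial ι K) (d m : α → ℕ) (X Y : Finset ι), (∀ a, (F a).IsHomogeneous (d a)) →
    (∀ a, m a < d a) → Disjoint X Y → (∀ a, Mix (F a) X Y (m a)) →
    ∑ a, (d a + m a) + 1 ≤ X.card → ∀ p : ι → K, p ≠ 0 → Supp Y p → (∀ a, eval p (F a) = 0) →
    ∀ (n : ℕ) (R : AddSubgroup (Set (MvPolynomial ι K) →₀ ℤ)), RatS K (n + 1) F ≤ R → IsSat R →
      (∀ (κ : Type) [Field κ] [Algebra K κ], Algebra.trdeg K κ = n →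
        ∀ z B : ι → κ, Supp X z → LinearIndependent κ ![z, B] → (∀ a, Vanish (F a) z B) →
        (∀ a, Vanish (F a) (cst κ p) z) → cyc K (gen z B) ∈ R) →
      ∀ (E : Type) [Field E] [Algebra K E] (P : ι → E), Algebra.trdeg K E = (n + 1 : ℕ) → P ≠ 0 →
        (∀ a, aeval P (F a) = 0) → cyc K P ∈ R

/-- up to a finite extension, all families of lines through points `z` are special -/
def W_SL : Prop :=
  ∀ (K : Type) [Field K] [Infinite K] (ι α : Type) [Fintype ι] [Fintype α] [Nonempty α]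
    (F : α → MvPolynomial ι K) (d m : α → ℕ) (X Y : Finset ι), (∀ a, (F a).IsHomogeneous (d a)) →
    (∀ a, m a < d a) → Disjoint X Y → (∀ a, Mix (F a) X Y (m a)) → ∑ a, d a + 1 ≤ X.card →
    ∀ (p : ι → K) (n : ℕ) (κ : Type) [Field κ] [Algebra K κ], Algebra.trdeg K κ = n →
      ∀ z B : ι → κ, Supp X z → LinearIndependent κ ![z, B] → (∀ a, Vanish (F a) z B) →
      (∀ a, Vanish (F a) (cst κ p) z) →
      ∃ (N δ : ℕ), 0 < N ∧ δ ≤ n ∧ N • cyc K (gen z B) ∈ TS F d m X Y p n δ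

/-- vertical terms are special families of lines with a smaller `δ` -/
def W_SV : Prop :=
  ∀ (K : Type) [Field K] [Infinite K] (ι α : Type) [Fintype ι] [Fintype α]
    (F : α → MvPolynomial ι K) (d m : α → ℕ) (X Y : Finset ι), (∀ a, (F a).IsHomogeneous (d a)) →
    (∀ a, m a < d a) → Disjoint X Y → (∀ a, Mix (F a) X Y (m a)) →
    ∀ (p : ι → K) (n δ : ℕ) (K1 : Type) [Field K1] [Algebra K K1], IsFG δ K K1 →
      ∀ (z C : ι → K1), LinearIndependent K1 ![z, C] → Supp X z → (∀ i ∈ Y, C i = 0) →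
      (∀ a, Vanish (F a) (cst K1 p) z) → (∀ a, ∀ j, j + m a < d a → co (F a) z C j = 0) →
      ∀ c ∈ VTS K n (HY F d m Y z C) z (phiY Y C),
        ∃ (N δ' : ℕ), 0 < N ∧ δ' < δ ∧ N • c ∈ TS F d m X Y p n δ'

/-- cycles of positive dimension are sums of cones with the vertex `p` -/
def W_Q (s : ℕ) : Prop :=
  ∀ (K : Type) [Field K] [Infinite K] (ι α : Type) [Fintype ι] [Fintype α] [Nonempty α]
    (F : α → MvPolynomial ι K) (d : α → ℕ) (b : ι → ℕ) (m : ℕ), Sys F d b s m →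
    ∀ p : ι → K, p ≠ 0 → (∀ i, b i ≠ 0 → p i = 0) → (∀ a, eval p (F a) = 0) →
    ∀ n : ℕ, n + 1 ≤ s → ∀ R : AddSubgroup (Set (MvPolynomial ι K) →₀ ℤ), RatS K (n + 1) F ≤ R →
      IsSat R → ConesIn F p (bS b s) n R →
      ∀ (E : Type) [Field E] [Algebra K E] (P : ι → E), Algebra.trdeg K E = (n + 1 : ℕ) → P ≠ 0 →
        (∀ a, aeval P (F a) = 0) → cyc K P ∈ R

/-- all cycles of dimension `l ≤ s` are multiples of a linear subspace -/
def W_P (s : ℕ) : Prop :=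
  ∀ (K : Type) [Field K] [Infinite K] (ι α : Type) [Fintype ι] [Fintype α] [Nonempty α]
    (F : α → MvPolynomial ι K) (d : α → ℕ) (b : ι → ℕ) (m : ℕ), Sys F d b s m →
    ∀ Λ : ℕ → ι → K, Flag F b s Λ → ∀ l : ℕ, l ≤ s →
      ∀ (E : Type) [Field E] [Algebra K E] (P : ι → E), Algebra.trdeg K E = l → P ≠ 0 →
        (∀ a, aeval P (F a) = 0) → cyc K P ∈ Mult (RatS K l F) (lin K Λ l)

/-- existence of flags -/
def W_FLAG : Prop :=
  ∀ (k : Type) [Field k] [IsAlgClosed k] [Infinite k] (ι α : Type) [Fintype ι] [Fintype α]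
    (F : α → MvPolynomial ι k) (d : α → ℕ) (b : ι → ℕ) (s m : ℕ), Sys F d b s m →
    (∃ a, 2 ≤ d a) → ∃ Λ : ℕ → ι → k, Flag F b s Λ

/-- the main theorem -/
def W_U : Prop :=
  ∀ (k : Type) [Field k] [IsAlgClosed k] [Infinite k] (ι α : Type) [Fintype ι] [Fintype α]
    (F : α → MvPolynomial ι k) (d : α → ℕ) (b : ι → ℕ) (s m : ℕ), Sys F d b s m →
    (∃ a, 2 ≤ d a) → ∃ Λ : ℕ → ι → k, (LinearIndependent k fun j : Fin (s + 1) => Λ j) ∧
      (∀ (a : α) (c : Fin (s + 1) → k), eval (fun i => ∑ j, c j * Λ j i) (F a) = 0) ∧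
      ∀ (K : Type) [Field K] [Algebra k K] (l : ℕ), l ≤ s →
        ∀ (E : Type) [Field E] [Algebra K E] (P : ι → E), Algebra.trdeg K E = l → P ≠ 0 →
          (∀ a, aeval P (map (algebraMap k K) (F a)) = 0) →
          cyc K P ∈ Mult (RatS K l fun a => map (algebraMap k K) (F a))
            (lin K (fun j i => algebraMap k K (Λ j i)) l)

/-! ### implications -/

def W_SYSYi : Prop := W_SUPP → W_SYSY
def W_SYSSi : Prop := W_SUPP → W_SYSS
def W_GOODYi : Prop := S_CO → S_MIX → W_GOODY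
def W_GOODSi : Prop := S_CO → S_MIX → W_GOODS
def W_SBi : Prop := S_R → T_CYC2 → T_LIM2 → T_ABH → S_CO → S_SOLVE → S_MIX → W_SB
def W_SLi : Prop := T_CYC2 → S_CO → S_SOLVE → S_MIX → W_SL
def W_SVi : Prop := T_CYC2 → T_LIM2 → T_ABH → S_CO → S_MIX → W_GOODY → W_SV
def W_QSTEPi : Prop :=
  W_SB → W_SL → W_SV → W_GOODY → W_SYSY → S_U → T_WD → T_CYC2 → S_PEN → ∀ s, W_Q s → W_Q (s + 1)
def W_Pi : Prop :=
  (∀ s, W_Q s) → W_GOODS → W_SYSS → S_UA → T_WD → T_CYC2 → T_LIN → S_CO → S_PEN → ∀ s, W_P s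
def W_FLAGi : Prop := W_SYSS → S_SOLVE → S_CO → S_MIX → W_FLAG
def W_Ui : Prop := (∀ s, W_P s) → W_FLAG → W_U

end Pool.Agent.Z15P.Z15.W
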