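import Pool.Agent.Z15P.Z15.W.Stm
import Pool.Agent.Z15P.Z15.J.SA
import Pool.Agent.Z15P.T2h59.Z15.Lin

/-!
The induction step for cones.
-/

set_option autoImplicit false
set_option linter.all false

open FF FF.PP MvPolynomial Pool.Agent.Z15P.Z15.H Pool.Agent.Z15P.Z15.J Pool.Agent.Z15P.Z15.J.Stm Pool.Agent.Z15P.Z15.S

namespace Pool.Agent.Z15P.Z15.W

open Pool.Agent.Z15P.T2h59.Z15 (li_of_supp)

section

variable {α : Type}

theorem mu_lt {d : α → ℕ} {m : ℕ} (hd : ∀ a, 0 < d a) (a : α) : mu d m a < d a := by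
  have := hd a
  unfold mu
  omega

theorem mu_le {d : α → ℕ} {m : ℕ} (hd : ∀ a, 0 < d a) (a : α) : mu d m a ≤ m * d a := by
  have := hd a
  unfold mu
  refine (min_le_left _ _).trans ?_
  exact Nat.le_mul_of_pos_right m this

theorem sum_le_pow [Fintype α] {d : α → ℕ} {m : ℕ} (hd : ∀ a, 0 < d a) (s : ℕ) :
    ∑ a, (d a + mu d m a) ≤ (m + 1) ^ (s + 1) * ∑ a, d a := by
  have h1 : ∑ a, (d a + mu d m a) ≤ (m + 1) * ∑ a, d a := by
    rw [Finset.mul_sum]
    refine Finset.sum_le_sum fun a _ => ?_
    have := mu_le (m := m) hd a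
    nlinarith
  refine h1.trans (Nat.mul_le_mul_right _ ?_)
  rw [pow_succ]
  exact Nat.le_mul_of_pos_left _ (Nat.pow_pos (Nat.succ_pos m))

end

section

variable {ι : Type} [Fintype ι] {b : ι → ℕ} {s : ℕ}

theorem disj_XY : Disjoint (bX b s) (bY b s) := by
  rw [Finset.disjoint_left]
  intro i hi hi'
  unfold bX at hi
  unfold bY at hi'
  rw [Finset.mem_filter] at hi hi'
  omega

theorem degree_of_hom {K : Type} [Field K] {F : MvPolynomial ι K} {d : ℕ} (hF : F.IsHomogeneous d)
    {μ : ι →₀ ℕ} (hμ : μ ∈ F.support) : ∑ i, μ i = d := by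
  have h1 : μ.degree = d := by
    rw [← hF (mem_support_iff.1 hμ), Finsupp.degree_eq_weight_one]
    rfl
  rw [← h1, Finsupp.degree_apply]
  exact (Finset.sum_subset (Finset.subset_univ _) fun i _ hi => Finsupp.notMem_support_iff.1 hi).symm

/-- the mixing condition for two sets of variables -/
theorem mix_of_mixB {K : Type} [Field K] {F : MvPolynomial ι K} {d m t : ℕ}
    (hF : F.IsHomogeneous d) (hB : MixB F b t m) {X Y : Finset ι} (hXY : Disjoint X Y)
    (hlt : ∀ i ∈ Y, ∀ i' ∈ X, b i < b i' ∧ b i' ≤ t) : Mix F X Y (min m (d - 1)) := by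
  classical
  rintro μ hμ ⟨i, hi, hμi⟩
  refine le_min ?_ ?_
  · refine le_trans ?_ (hB μ hμ i hμi)
    refine Finset.sum_le_sum_of_subset ?_
    intro i' hi'
    rw [Finset.mem_filter]
    exact ⟨Finset.mem_univ _, hlt i hi i' hi'⟩
  · have h1 := degree_of_hom hF hμ
    have h2 : ∑ i' ∈ X, μ i' + μ i ≤ ∑ i', μ i' := by
      have h3 : i ∉ X := fun h => Finset.disjoint_left.1 hXY h hi
      rw [add_comm, ← Finset.sum_insert h3]
      exact Finset.sum_le_sum_of_subset (Finset.subset_univ _)
    omega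

end

section

variable {K : Type} [Field K] [Infinite K] {ι : Type} [Fintype ι]

omit [Infinite K] [Fintype ι] in
theorem vanish_descend [Infinite K] [Fintype ι] {F : MvPolynomial ι K} {d : ℕ}
    (hF : F.IsHomogeneous d) {K1 κ : Type} [Field K1]
    [Field κ] [Algebra K K1] [Algebra K1 κ] [Algebra K κ] [IsScalarTower K K1 κ] {A B : ι → K1}
    (h : Vanish F (fun i => algebraMap K1 κ (A i)) fun i => algebraMap K1 κ (B i)) :
    Vanish F A B := by
  obtain ⟨-, h2, -, h4, -⟩ := t_CO K ι F d hF
  rw [h2]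
  intro j hj
  have h5 := (h2 κ _ _).1 h j hj
  have h6 := h4 K1 κ (IsScalarTower.toAlgHom K K1 κ) A B j
  have h7 : co F (fun i => algebraMap K1 κ (A i)) (fun i => algebraMap K1 κ (B i)) j =
      algebraMap K1 κ (co F A B j) := h6
  rw [h7] at h5
  exact (map_eq_zero _).1 h5

omit [Infinite K] [Fintype ι] in
theorem co_descend [Infinite K] [Fintype ι] {F : MvPolynomial ι K} {d : ℕ}
    (hF : F.IsHomogeneous d) {K1 κ : Type} [Field K1]
    [Field κ] [Algebra K K1] [Algebra K1 κ] [Algebra K κ] [IsScalarTower K K1 κ] {A B : ι → K1}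
    {j : ℕ} (h : co F (fun i => algebraMap K1 κ (A i)) (fun i => algebraMap K1 κ (B i)) j = 0) :
    co F A B j = 0 := by
  obtain ⟨-, -, -, h4, -⟩ := t_CO K ι F d hF
  have h6 := h4 K1 κ (IsScalarTower.toAlgHom K K1 κ) A B j
  have h7 : co F (fun i => algebraMap K1 κ (A i)) (fun i => algebraMap K1 κ (B i)) j =
      algebraMap K1 κ (co F A B j) := h6
  rw [h7] at h
  exact (map_eq_zero _).1 h

/-- two ways to parametrize a plane -/
theorem swap (hC : T_CYC2) {κ : Type} [Field κ] [Algebra K κ] (a b c : ι → κ) :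
    cyc K (gen (cst (RatFunc κ) a) (gen b c)) = cyc K (gen (cst (RatFunc κ) b) (gen a c)) := by
  have h0 : IsGen κ (Fin.elim0 : Fin 0 → κ) := by
    refine ⟨algebraicIndependent_empty_type, ?_⟩
    apply top_unique
    intro x _
    exact IntermediateField.algebraMap_mem _ x
  obtain ⟨h1, -⟩ := isGen_ratFunc h0
  have h2 : IsGen κ (fun _ : Fin 1 => (RatFunc.X : RatFunc κ)) := by
    have h3 : IntermediateField.adjoin κ (Set.range fun _ : Fin 1 => (RatFunc.X : RatFunc κ)) = ⊤ := by
      apply top_unique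
      rw [← h1.2]
      refine IntermediateField.adjoin_le_iff.2 ?_
      rintro _ ⟨j, rfl⟩
      have hj : j = 0 := by
        ext
        have := j.2
        omega
      subst hj
      rw [Fin.cons_zero]
      exact inv_mem (IntermediateField.subset_adjoin _ _ ⟨0, rfl⟩)
    refine isGen_of_trdeg h3 ?_
    have := h1.trdeg
    simpa using this
  have h3 := gen_swap (K := K) hC h2 a b (fun _ => c)
  have h4 : ∀ x : ι → κ, (fun i => algebraMap κ (RatFunc κ) (x i) +
      ∑ j : Fin 1, RatFunc.X * algebraMap κ (RatFunc κ) (c i)) = gen x c := by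
    intro x
    funext i
    simp [gen]
  rw [h4, h4] at h3
  exact h3

end

section

variable {K : Type} [Field K] [Infinite K] {ι α : Type} [Fintype ι] [Fintype α] [Nonempty α]

theorem ts_mem (hSV : W_SV) (hGOOD : W_GOODY) (hSYS : W_SYSY) (hU : S_U) (hWD : T_WD)
    (hCYC : T_CYC2) (hPEN : S_PEN) {s : ℕ} (ih : W_Q s) {F : α → MvPolynomial ι K} {d : α → ℕ}
    {b : ι → ℕ} {m : ℕ} (hsys : Sys F d b (s + 1) m) {p : ι → K} (hp : p ≠ 0)
    (hpb : ∀ i, b i ≠ 0 → p i = 0) (hFp : ∀ a, eval p (F a) = 0) {n : ℕ} (hn : n + 1 ≤ s + 1)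
    {R : AddSubgroup (Set (MvPolynomial ι K) →₀ ℤ)} (hR : RatS K (n + 1) F ≤ R) (hRs : IsSat R)
    (hcone : ConesIn F p (bS b (s + 1)) n R) : ∀ δ, δ ≤ n →
    ∀ c ∈ TS F d (mu d m) (bX b s) (bY b s) p n δ, c ∈ R := by
  classical
  intro δ
  induction δ using Nat.strong_induction_on with
  | _ δ ihδ =>
  intro hδ c hc
  obtain ⟨κ, _, _, K1, z, C, y, v, htr, hfg, hz, hC, hli, hzX, hCY, hVp, hco, hyY, hyv, hV, rfl⟩ := hc
  have hm : ∀ a, mu d m a < d a := mu_lt hsys.pos
  have hMix : ∀ a, Mix (F a) (bX b s) (bY b s) (mu d m a) := fun a =>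
    mix_of_mixB (hsys.hom a) (hsys.mix a) disj_XY (by
      intro i hi i' hi'
      unfold bY at hi
      unfold bX at hi'
      rw [Finset.mem_filter] at hi hi'
      omega)
  have hpY : Supp (bY b s) p := fun i hi => hpb i (by
    intro h
    apply hi
    unfold bY
    rw [Finset.mem_filter]
    exact ⟨Finset.mem_univ _, by omega⟩)
  have hcK1 : Infinite K1 := Infinite.of_injective _ (algebraMap K K1).injective
  have hcκ : Infinite κ := Infinite.of_injective _ (algebraMap K κ).injective
  obtain ⟨q, hq, hqt⟩ := trdeg_split (K := K) (K1 := K1) (κ' := κ) (l := n + 1) (by rw [htr]; norm_cast)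
    hfg.2
  have hq' : q + δ = n := by omega
  obtain ⟨z1, hz1⟩ : ∃ z1 : ι → K1, ∀ i, algebraMap K1 κ (z1 i) = z i := ⟨fun i => ⟨z i, hz i⟩, fun _ => rfl⟩
  obtain ⟨C1, hC1⟩ : ∃ C1 : ι → K1, ∀ i, algebraMap K1 κ (C1 i) = C i := ⟨fun i => ⟨C i, hC i⟩, fun _ => rfl⟩
  have hli1 : LinearIndependent K1 ![z1, C1] := by
    apply li_descend (κ' := κ)
    simp only [hz1, hC1]
    exact hli
  have hz10 : z1 ≠ 0 := by
    have := hli1.ne_zero 0
    simpa using this
  have hzX1 : Supp (bX b s) z1 := fun i hi => by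
    have h1 := hzX i hi
    rw [← hz1] at h1
    exact (map_eq_zero _).1 h1
  have hCY1 : ∀ i ∈ bY b s, C1 i = 0 := fun i hi => by
    have h1 := hCY i hi
    rw [← hC1] at h1
    exact (map_eq_zero _).1 h1
  have hVp1 : ∀ a, Vanish (F a) (cst K1 p) z1 := fun a => by
    refine vanish_descend (hsys.hom a) (κ := κ) ?_
    have h1 : (fun i => algebraMap K1 κ (cst K1 p i)) = cst κ p := by
      funext i
      exact (IsScalarTower.algebraMap_apply K K1 κ (p i)).symm
    rw [h1]
    simp only [hz1]
    exact hVp a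
  have hco1 : ∀ a, ∀ j, j + mu d m a < d a → co (F a) z1 C1 j = 0 := fun a j hj => by
    refine co_descend (hsys.hom a) (κ := κ) ?_
    simp only [hz1, hC1]
    exact hco a j hj
  -- the parameter space
  have hgood := hGOOD K ι α F d (mu d m) (bX b s) (bY b s) hsys.hom hm disj_XY hMix K1 z1 C1 hli1 hzX1
    hCY1 hco1
  have hsysY := hSYS K ι α F d b s m hsys K1 z1 C1 hzX1 hCY1
  obtain ⟨Φ, hΦ⟩ := hWD K K1 ι ({i // i ∈ bY b s} ⊕ Unit) z1 (phiY (bY b s) C1) hz10
  have hVTS : ∀ c ∈ VTS K n (HY F d (mu d m) (bY b s) z1 C1) z1 (phiY (bY b s) C1), c ∈ R := by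
    intro c hc
    obtain ⟨N, δ', hN, hδ', hTS⟩ := hSV K ι α F d (mu d m) (bX b s) (bY b s) hsys.hom hm disj_XY hMix p n
      δ K1 hfg z1 C1 hli1 hzX1 hCY1 hVp1 hco1 c hc
    exact hRs _ N hN (ihδ δ' hδ' (by omega) _ hTS)
  have hΦR : ∀ D ∈ RatS K1 q (HY F d (mu d m) (bY b s) z1 C1), Φ D ∈ R := by
    intro D hD
    have h1 := hU K K1 ι ({i // i ∈ bY b s} ⊕ Unit) α (Σ a, Fin (mu d m a + 1)) δ q hfg F _
      (dY d (mu d m)) hsysY.hom z1 _ hz10 hgood.1 Φ hΦ D hD
    rw [hq'] at h1
    exact (sup_le hR ((AddSubgroup.closure_le _).2 hVTS)) h1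
  -- the point
  obtain ⟨e, he⟩ : ∃ e : {i // i ∈ bY b s} ⊕ Unit → κ, e = Sum.elim (fun i => y i.1) fun _ => v :=
    ⟨_, rfl⟩
  have he0 : e ≠ 0 := by
    intro h0
    rw [he] at h0
    rcases hyv with h | h
    · apply h
      funext i
      by_cases hi : i ∈ bY b s
      · exact congrFun h0 (Sum.inl ⟨i, hi⟩)
      · exact hyY i hi
    · exact h (congrFun h0 (Sum.inr ()))
  have hcstz : cst κ z1 = z := funext fun i => hz1 i
  have hGe : ∀ x, aeval e (HY F d (mu d m) (bY b s) z1 C1 x) = 0 := by
    rw [he]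
    refine (hgood.2.2 κ y v hyY).2 ?_
    intro a
    rw [hcstz]
    simp only [hC1]
    exact hV a
  have hΦe : Φ (cyc K1 e) = cyc K (gen z fun i => v * C i + y i) := by
    rw [hΦ κ e he0, he, hgood.2.1 κ y v hyY, hcstz]
    simp only [hC1]
  rw [← hΦe]
  -- the base point
  obtain ⟨p', hp'⟩ : ∃ p' : {i // i ∈ bY b s} ⊕ Unit → K1,
    p' = Sum.elim (fun i => cst K1 p i.1) fun _ => 0 := ⟨_, rfl⟩
  have hcstp : ∀ (κ' : Type) [Field κ'] [Algebra K κ'], cst κ' p ≠ 0 := by
    intro κ' _ _ h0
    apply hp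
    funext i
    exact (map_eq_zero _).1 (congrFun h0 i)
  have hsuppp : ∀ (κ' : Type) [Field κ'] [Algebra K κ'], Supp (bY b s) (cst κ' p) := by
    intro κ' _ _ i hi
    unfold cst
    rw [hpY i hi, map_zero]
  have hp'0 : p' ≠ 0 := by
    intro h0
    rw [hp'] at h0
    apply hcstp K1
    funext i
    by_cases hi : i ∈ bY b s
    · exact congrFun h0 (Sum.inl ⟨i, hi⟩)
    · exact hsuppp K1 i hi
  have hlmp : ∀ (κ' : Type) [Field κ'] [Algebra K1 κ'] [Algebra K κ'] [IsScalarTower K K1 κ'],
      lm (phiY (bY b s) C1) (cst κ' p') = cst κ' p := by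
    intro κ' _ _ _ _
    have h1 := hgood.2.1 κ' (cst κ' p) 0 (hsuppp κ')
    have h2 : (Sum.elim (fun i : {i // i ∈ bY b s} => cst κ' p i.1) fun _ => (0 : κ')) = cst κ' p' := by
      funext x
      rw [hp']
      rcases x with i | i
      · exact IsScalarTower.algebraMap_apply K K1 κ' (p i.1)
      · exact (map_zero _).symm
    rw [h2] at h1
    rw [h1]
    funext i
    rw [zero_mul, zero_add]
  have hVpz : ∀ a, Vanish (F a) z1 (cst K1 p) := fun a => Pool.Agent.Z15P.T2h59.Z15.Vanish.symm (hVp1 a)
  have hGp' : ∀ x, aeval p' (HY F d (mu d m) (bY b s) z1 C1 x) = 0 := by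
    rw [hp']
    refine (hgood.2.2 K1 (cst K1 p) 0 (hsuppp K1)).2 ?_
    intro a
    have h1 : (fun i => (0 : K1) * algebraMap K1 K1 (C1 i) + cst K1 p i) = cst K1 p := by
      funext i
      rw [zero_mul, zero_add]
    rw [h1]
    exact hVpz a
  rcases Nat.eq_zero_or_pos q with rfl | hq0
  · -- Roitman's theorem
    obtain ⟨N, hN, m', hrat⟩ := hPEN K1 ({i // i ∈ bY b s} ⊕ Unit) (Σ a, Fin (mu d m a + 1))
      (HY F d (mu d m) (bY b s) z1 C1) (dY d (mu d m)) hsysY.pos hsysY.hom hsysY.sizes.total p' hp'0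
      (fun x => by
        have h := hGp' x
        rw [← MvPolynomial.coe_aeval_eq_eval]
        exact h) κ e (by rw [hqt, Nat.cast_zero]) he0 hGe
    have h1 := hΦR _ hrat
    rw [map_sub, map_nsmul, map_zsmul] at h1
    have h2 : Φ (cyc K1 p') ∈ R := by
      have h3 := hlmp K1
      have h4 : cst K1 p' = p' := rfl
      rw [h4] at h3
      rw [hΦ K1 p' hp'0, h3]
      have h5 : cyc K (gen (cst K1 z1) (cst K1 p)) = cyc K (gen (cst K1 p) z1) := by
        have h6 : cst K1 z1 = z1 := rfl
        rw [h6]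
        have h7 : LinearIndependent K1 ![cst K1 p, z1] :=
          li_of_supp (disj_XY (b := b) (s := s)).symm (hsuppp K1) hzX1 (hcstp K1) hz10
        have h8 : LinearIndependent K1 ![z1, cst K1 p] :=
          li_of_supp (disj_XY (b := b) (s := s)) hzX1 (hsuppp K1) hz10 (hcstp K1)
        exact (hCYC K ι K1).2.2.2.2.2.2.1 _ _ _ _ h7 h8 (Submodule.subset_span (by simp))
          (Submodule.subset_span (by simp))
      rw [h5]
      refine hcone K1 (by rw [hfg.2]; norm_cast; omega) z1 ?_ hz10 hVp1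
      intro i hi
      refine hzX1 i ?_
      intro h9
      apply hi
      unfold bX at h9
      unfold bS
      rw [Finset.mem_filter] at h9 ⊢
      exact ⟨Finset.mem_univ _, by omega, by omega⟩
    have h3 : N • Φ (cyc K1 e) ∈ R := by
      have h4 := add_mem h1 (zsmul_mem h2 m')
      rwa [sub_add_cancel] at h4
    exact hRs _ N hN h3
  · -- induction
    obtain ⟨q', rfl⟩ : ∃ q', q = q' + 1 := ⟨q - 1, by omega⟩
    have hne : Nonempty (Σ a, Fin (mu d m a + 1)) := ⟨⟨Classical.arbitrary α, 0⟩⟩
    have hmem := ih K1 ({i // i ∈ bY b s} ⊕ Unit) (Σ a, Fin (mu d m a + 1))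
      (HY F d (mu d m) (bY b s) z1 C1) (dY d (mu d m)) (Sum.elim (fun i => b i.1) fun _ => s + 1) m
      hsysY p' hp'0 ?_ ?_ q' (by omega) (R.comap Φ) (fun D hD => hΦR D hD) ?_ ?_ κ e hqt he0 hGe
    · exact hmem
    · -- the block of `p'`
      rintro (i | i) hi
      · rw [hp']
        change algebraMap K K1 (p i.1) = 0
        rw [hpb i.1 hi, map_zero]
      · rw [hp']
        rfl
    · intro x
      have h := hGp' x
      rw [← MvPolynomial.coe_aeval_eq_eval]
      exact h
    · -- saturated
      intro D N hN hD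
      rw [AddSubgroup.mem_comap] at hD ⊢
      rw [map_nsmul] at hD
      exact hRs _ N hN hD
    · -- cones
      intro κ' _ _ htr' w hw hw0 hVw
      rw [AddSubgroup.mem_comap]
      let _ : Algebra K κ' := ((algebraMap K1 κ').comp (algebraMap K K1)).toAlgebra
      have t1 : IsScalarTower K K1 κ' := IsScalarTower.of_algebraMap_eq fun _ => rfl
      have t2 : IsScalarTower K κ' (RatFunc κ') := inferInstance
      have t3 : IsScalarTower K1 κ' (RatFunc κ') := inferInstance
      have t4 : IsScalarTower K K1 (RatFunc κ') := IsScalarTower.of_algebraMap_eq fun x => by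
        rw [IsScalarTower.algebraMap_apply K κ' (RatFunc κ'),
          IsScalarTower.algebraMap_apply K K1 κ', ← IsScalarTower.algebraMap_apply K1 κ' (RatFunc κ')]
      have hcκ' : Infinite κ' := Infinite.of_injective _ (algebraMap K κ').injective
      obtain ⟨w1, hw1⟩ : ∃ w1 : ι → κ', w1 = lm (phiY (bY b s) C1) w := ⟨_, rfl⟩
      have hwr : w (Sum.inr ()) = 0 := hw _ (by
        unfold bS
        rw [Finset.mem_filter]
        simp)
      obtain ⟨y1, hy1⟩ : ∃ y1 : ι → κ', y1 = fun i => if h : i ∈ bY b s then w (Sum.inl ⟨i, h⟩) else 0 :=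
        ⟨_, rfl⟩
      have hy1Y : Supp (bY b s) y1 := fun i hi => by
        rw [hy1]
        simp only [hi, dite_false]
      have hw2 : (Sum.elim (fun i : {i // i ∈ bY b s} => y1 i.1) fun _ => (0 : κ')) = w := by
        funext x
        rcases x with i | i
        · rw [Sum.elim_inl, hy1]
          simp only [i.2, dite_true]
        · rw [Sum.elim_inr]
          exact hwr.symm
      have hw1y : w1 = y1 := by
        have h1 := hgood.2.1 κ' y1 0 hy1Y
        rw [hw2] at h1
        rw [hw1, h1]
        funext i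
        rw [zero_mul, zero_add]
      have hy1S : ∀ i, ¬ (1 ≤ b i ∧ b i ≤ s) → y1 i = 0 := by
        intro i hi
        rw [hy1]
        simp only
        split_ifs with h
        · refine hw _ ?_
          unfold bS
          rw [Finset.mem_filter]
          rintro ⟨-, h2⟩
          exact hi h2
        · rfl
      have hy10 : y1 ≠ 0 := by
        intro h0
        apply hw0
        rw [← hw2, h0]
        funext x
        rcases x with i | i <;> rfl
      -- the family of planes
      have hgen0 : gen (cst κ' p') w ≠ 0 := by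
        intro h0
        apply hw0
        funext x
        have h1 := congrFun h0 x
        simp only [gen, Pi.zero_apply] at h1
        by_contra h2
        have h2' : w x ≠ 0 := h2
        have h3 : (RatFunc.X : RatFunc κ') = algebraMap κ' (RatFunc κ') (-(cst κ' p' x) / w x) := by
          rw [map_div₀, map_neg, eq_div_iff ((map_ne_zero _).2 h2')]
          linear_combination h1
        exact RatFunc.transcendental_X (K := κ') (by rw [h3]; exact isAlgebraic_algebraMap _)
      have hlmgen : lm (phiY (bY b s) C1) (gen (cst κ' p') w) = gen (cst κ' p) y1 := by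
        have h1 : ∀ i, lm (phiY (bY b s) C1) (gen (cst κ' p') w) i =
            algebraMap κ' (RatFunc κ') (lm (phiY (bY b s) C1) (cst κ' p') i) +
              RatFunc.X * algebraMap κ' (RatFunc κ') (lm (phiY (bY b s) C1) w i) := by
          intro i
          unfold lm gen
          rw [map_sum, map_sum, Finset.mul_sum, ← Finset.sum_add_distrib]
          refine Finset.sum_congr rfl fun x _ => ?_
          rw [map_mul, map_mul, ← IsScalarTower.algebraMap_apply K1 κ' (RatFunc κ')]
          ring
        funext i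
        rw [h1, hlmp κ', ← hw1, hw1y]
        rfl
      rw [hΦ (RatFunc κ') _ hgen0, hlmgen]
      have hcc : cst (RatFunc κ') z1 = cst (RatFunc κ') (cst κ' z1) := by
        funext i
        exact IsScalarTower.algebraMap_apply K1 κ' (RatFunc κ') (z1 i)
      rw [hcc, swap hCYC]
      have hcp : cst (RatFunc κ') (cst κ' p) = cst (RatFunc κ') p := by
        funext i
        exact (IsScalarTower.algebraMap_apply K κ' (RatFunc κ') (p i)).symm
      rw [hcp]
      refine hcone (RatFunc κ') ?_ _ ?_ ?_ ?_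
      · -- transcendence degree
        have h1 : Algebra.trdeg κ' (RatFunc κ') = 1 := (Pool.Agent.Z15P.T2h69.H15.isFF_ratFunc κ').trdeg
        rw [← trdeg_add_eq K κ', ← trdeg_add_eq K K1 (A := κ'), hfg.2, htr', h1]
        norm_cast
        omega
      · -- support
        intro i hi
        unfold bS at hi
        rw [Finset.mem_filter] at hi
        have h1 : cst κ' z1 i = 0 := by
          unfold cst
          rw [hzX1 i, map_zero]
          unfold bX
          rw [Finset.mem_filter]
          rintro ⟨-, h2⟩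
          exact hi ⟨Finset.mem_univ _, by omega, by omega⟩
        have h2 : y1 i = 0 := hy1S i fun h => hi ⟨Finset.mem_univ _, h.1, by omega⟩
        unfold gen
        rw [h1, h2, map_zero, mul_zero, add_zero]
      · -- nonzero
        intro h0
        apply hy10
        funext i
        have h1 := congrFun h0 i
        by_cases hi : i ∈ bX b s
        · have h2 : i ∉ bY b s := Finset.disjoint_left.1 disj_XY hi
          exact hy1Y i h2
        · have h2 : cst κ' z1 i = 0 := by
            unfold cst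
            rw [hzX1 i hi, map_zero]
          unfold gen at h1
          rw [h2, map_zero, zero_add, Pi.zero_apply] at h1
          rcases mul_eq_zero.1 h1 with h3 | h3
          · exact absurd h3 RatFunc.X_ne_zero
          · exact (map_eq_zero _).1 h3
      · -- vanishing
        intro a M _ _ _ _ α' β'
        let _ : Algebra κ' M := ((algebraMap (RatFunc κ') M).comp (algebraMap κ' (RatFunc κ'))).toAlgebra
        have u1 : IsScalarTower κ' (RatFunc κ') M := IsScalarTower.of_algebraMap_eq fun _ => rfl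
        let _ : Algebra K1 M := ((algebraMap κ' M).comp (algebraMap K1 κ')).toAlgebra
        have u2 : IsScalarTower K1 κ' M := IsScalarTower.of_algebraMap_eq fun _ => rfl
        have u3 : IsScalarTower K κ' M := IsScalarTower.of_algebraMap_eq fun x => by
          rw [IsScalarTower.algebraMap_apply K (RatFunc κ') M,
            IsScalarTower.algebraMap_apply K κ' (RatFunc κ'),
            ← IsScalarTower.algebraMap_apply κ' (RatFunc κ') M]
        have u4 : IsScalarTower K K1 M := IsScalarTower.of_algebraMap_eq fun x => by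
          rw [IsScalarTower.algebraMap_apply K κ' M, IsScalarTower.algebraMap_apply K K1 κ',
            ← IsScalarTower.algebraMap_apply K1 κ' M]
        obtain ⟨θ, hθ⟩ : ∃ θ : M, θ = algebraMap (RatFunc κ') M RatFunc.X := ⟨_, rfl⟩
        obtain ⟨y2, hy2⟩ : ∃ y2 : ι → M, y2 = fun i => α' * cst M p i +
          (β' * θ) * algebraMap κ' M (y1 i) := ⟨_, rfl⟩
        have hy2Y : Supp (bY b s) y2 := fun i hi => by
          rw [hy2]
          simp only
          rw [hsuppp M i hi, hy1Y i hi, map_zero, mul_zero, mul_zero, add_zero]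
        have h1 := (hgood.2.2 M y2 0 hy2Y).1 (by
          intro x
          have h2 := hVw x M α' (β' * θ)
          refine Eq.trans ?_ h2
          congr 2
          funext u
          rcases u with i | i
          · rw [Sum.elim_inl, hy2, ← hw2, Sum.elim_inl, hp']
            change α' * cst M p i.1 + _ = α' * algebraMap κ' M (algebraMap K1 κ' (algebraMap K K1 (p i.1))) + _
            rw [← IsScalarTower.algebraMap_apply K1 κ' M, ← IsScalarTower.algebraMap_apply K K1 M]
            rfl
          · rw [Sum.elim_inr, hwr, hp']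
            change (0 : M) = α' * algebraMap κ' M (algebraMap K1 κ' 0) + _
            simp) a M β' 1
        rw [← h1]
        congr 2
        funext i
        have h3 : algebraMap (RatFunc κ') M (cst (RatFunc κ') p i) = cst M p i :=
          (IsScalarTower.algebraMap_apply K (RatFunc κ') M (p i)).symm
        have h4 : algebraMap (RatFunc κ') M (gen (cst κ' z1) y1 i) =
            algebraMap κ' M (cst κ' z1 i) + θ * algebraMap κ' M (y1 i) := by
          unfold gen
          rw [map_add, map_mul, ← IsScalarTower.algebraMap_apply κ' (RatFunc κ') M,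
            ← IsScalarTower.algebraMap_apply κ' (RatFunc κ') M, hθ]
        have h5 : algebraMap M M (cst M z1 i) = algebraMap κ' M (cst κ' z1 i) :=
          IsScalarTower.algebraMap_apply K1 κ' M (z1 i)
        rw [h3, h4, h5, hy2]
        simp only [Algebra.algebraMap_self, RingHom.id_apply]
        ring

end

theorem t_W_QSTEPi : W_QSTEPi := by
  intro hSB hSL hSV hGOOD hSYS hU hWD hCYC hPEN s ih K _ _ ι α _ _ _ F d b m hsys p hp hpb hFp n hn R
    hR hRs hcone
  have hm : ∀ a, mu d m a < d a := mu_lt hsys.pos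
  have hMix : ∀ a, Mix (F a) (bX b s) (bY b s) (mu d m a) := fun a =>
    mix_of_mixB (hsys.hom a) (hsys.mix a) disj_XY (by
      intro i hi i' hi'
      unfold bY at hi
      unfold bX at hi'
      rw [Finset.mem_filter] at hi hi'
      omega)
  have hpY : Supp (bY b s) p := fun i hi => hpb i (by
    intro h
    apply hi
    unfold bY
    rw [Finset.mem_filter]
    exact ⟨Finset.mem_univ _, by omega⟩)
  have hcard : ∑ a, (d a + mu d m a) + 1 ≤ (bX b s).card :=
    (Nat.add_le_add_right (sum_le_pow hsys.pos s) 1).trans (hsys.sizes.pos (s + 1) (by omega) le_rfl)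
  have hcard' : ∑ a, d a + 1 ≤ (bX b s).card := by
    refine le_trans (Nat.add_le_add_right (Finset.sum_le_sum fun a _ => ?_) 1) hcard
    exact Nat.le_add_right _ _
  refine hSB K ι α F d (mu d m) (bX b s) (bY b s) hsys.hom hm disj_XY hMix hcard p hp hpY hFp n R hR hRs ?_
  intro κ _ _ htr z B hz hli hV hVp
  obtain ⟨N, δ, hN, hδ, hTS⟩ := hSL K ι α F d (mu d m) (bX b s) (bY b s) hsys.hom hm disj_XY hMix hcard'
    p n κ htr z B hz hli hV hVp
  exact hRs _ N hN (ts_mem hSV hGOOD hSYS hU hWD hCYC hPEN ih hsys hp hpb hFp hn hR hRs hcone δ hδ _ hTS)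

end Pool.Agent.Z15P.Z15.W
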