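import Pool.Agent.Z15P.Z15.S.All
import Pool.Agent.Z15P.Z15.W.QStep
import Pool.Agent.Z15P.T3h64.Z15.Supp
import Pool.Agent.Z15P.T3h64.Z15.Sys
import Pool.Agent.Z15P.T3h64.Z15.Flag
import Pool.Agent.Z15P.T2h38.W15.GOODY
import Pool.Agent.Z15P.T2h38.W15.SL
import Pool.Agent.Z15P.T2h38.W15.SV
import Pool.Agent.Z15P.T2h59.Z15.WSB
import Pool.Agent.Z15P.T2h59.Z15.WGoodS
import Pool.Agent.Z15P.T2h25.W15.Ui
import Pool.Agent.Z15P.T2h92.W15.Pi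

/-!
Assembly.
-/

set_option autoImplicit false

open FF FF.PP MvPolynomial Pool.Agent.Z15P.Z15.H Pool.Agent.Z15P.Z15.J Pool.Agent.Z15P.Z15.J.Stm Pool.Agent.Z15P.T2h99.J
  Pool.Agent.Z15P.T2h62.J15 Pool.Agent.Z15P.Z15.S

namespace Pool.Agent.Z15P.Z15.W

theorem w_SYSY : W_SYSY := Pool.Agent.Z15P.T3h64.Z15.t_SYSYi Pool.Agent.Z15P.T3h64.Z15.t_SUPP

theorem w_SYSS : W_SYSS := Pool.Agent.Z15P.T3h64.Z15.t_SYSSi Pool.Agent.Z15P.T3h64.Z15.t_SUPP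

theorem w_GOODY : W_GOODY := Pool.Agent.Z15P.T2h38.W15.t_W_GOODYi t_CO a_MIX

theorem w_GOODS : W_GOODS := Pool.Agent.Z15P.T2h59.Z15.t_W_GOODSi t_CO a_MIX

theorem w_SB : W_SB :=
  Pool.Agent.Z15P.T2h59.Z15.t_W_SBi a_SR t_CYC2 t_J_LIM2 t_ABH t_CO a_SOLVE a_MIX

theorem w_SL : W_SL := Pool.Agent.Z15P.T2h38.W15.t_W_SLi t_CYC2 t_CO a_SOLVE a_MIX

theorem w_SV : W_SV := Pool.Agent.Z15P.T2h38.W15.t_W_SVi t_CYC2 t_J_LIM2 t_ABH t_CO a_MIX w_GOODY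

theorem w_Q : ∀ s, W_Q s := by
  intro s
  induction s with
  | zero =>
    intro K _ _ ι α _ _ _ F d b m _ p _ _ _ n hn
    exact absurd hn (by omega)
  | succ s ih => exact t_W_QSTEPi w_SB w_SL w_SV w_GOODY w_SYSY a_SU t_WD t_CYC2 a_PEN s ih

theorem w_P : ∀ s, W_P s :=
  Pool.Agent.Z15P.T2h92.W15.w_Pi w_Q w_GOODS w_SYSS a_SUA t_WD t_CYC2 t_LIN t_CO a_PEN

theorem w_FLAG : W_FLAG := Pool.Agent.Z15P.T3h64.Z15.t_FLAGi w_SYSS a_SOLVE t_CO a_MIX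

theorem w_U : W_U := t_W_Ui w_P w_FLAG

end Pool.Agent.Z15P.Z15.W
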