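import Pool.Agent.Z15P.Z15.S.Co

/-!
Cycles of all dimensions on varieties defined by systems of forms with few mixed monomials.
-/

set_option autoImplicit false

open FF FF.PP MvPolynomial Pool.Agent.Z15P.Z15.H Pool.Agent.Z15P.Z15.J Pool.Agent.Z15P.Z15.J.Stm Pool.Agent.Z15P.Z15.S

namespace Pool.Agent.Z15P.Z15.W

/-- multiples of an element of `R` belong to `R` only if the element does -/
def IsSat {A : Type} [AddCommGroup A] (R : AddSubgroup A) : Prop :=
  ∀ (c : A) (N : ℕ), 0 < N → N • c ∈ R → c ∈ R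

theorem isSat_mult {A : Type} [AddCommGroup A] (R : AddSubgroup A) (c0 : A) : IsSat (Mult R c0) :=
  fun _ _ hN h => Mult.of_nsmul hN h

theorem le_mult {A : Type} [AddCommGroup A] (R : AddSubgroup A) (c0 : A) : R ≤ Mult R c0 :=
  fun _ h => Mult.of_mem h

/-- the coefficient of `β ^ j` in `F(z + β φ(e))` as a form in `e` -/
noncomputable def Hf {k K1 ι ν : Type} [Field k] [Field K1] [Algebra k K1] [Fintype ν]
    (F : MvPolynomial ι k) (z : ι → K1) (φ : ν → ι → K1) (j : ℕ) : MvPolynomial ν K1 :=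
  co F (fun i => (C (z i) : MvPolynomial ν K1)) (fun i => ∑ n, X n * C (φ n i)) j

theorem hf_hom {k K1 ι ν : Type} [Field k] [Field K1] [Algebra k K1] [Fintype ν]
    (F : MvPolynomial ι k) (z : ι → K1) (φ : ν → ι → K1) (j : ℕ) :
    (Hf F z φ j).IsHomogeneous j := by
  have key : ∀ G : MvPolynomial ι k,
      pl G (fun i => (C (z i) : MvPolynomial ν K1)) (fun i => ∑ n, X n * C (φ n i)) ∈
        grd k ν K1 := by
    intro G
    unfold pl
    induction G using MvPolynomial.induction_on with
    | C a =>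
      rw [aeval_C]
      exact Subalgebra.algebraMap_mem _ _
    | add p q hp hq =>
      rw [map_add]
      exact add_mem hp hq
    | mul_X p i hp =>
      rw [map_mul, aeval_X]
      refine mul_mem hp (add_mem ?_ ?_)
      · intro s
        rw [Polynomial.coeff_C]
        split_ifs with h
        · rw [h]
          exact isHomogeneous_C _ _
        · exact isHomogeneous_zero _ _ _
      · intro s
        rw [mul_comm, Polynomial.coeff_C_mul, Polynomial.coeff_X]
        split_ifs with h
        · rw [mul_one, ← h]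
          refine IsHomogeneous.sum _ _ _ fun n _ => ?_
          exact (isHomogeneous_X _ _).mul (isHomogeneous_C _ _)
        · rw [mul_zero]
          exact isHomogeneous_zero _ _ _
  exact key F j

theorem hf_eval {k K1 ι ν : Type} [Field k] [Field K1] [Algebra k K1] [Fintype ν]
    (F : MvPolynomial ι k) (z : ι → K1) (φ : ν → ι → K1) (j : ℕ) (A : Type) [CommRing A]
    [Algebra K1 A] [Algebra k A] [IsScalarTower k K1 A] (e : ν → A) :
    aeval e (Hf F z φ j) = co F (fun i => algebraMap K1 A (z i))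
      (fun i => ∑ n, e n * algebraMap K1 A (φ n i)) j := by
  have h1 := co_map F ((aeval e : MvPolynomial ν K1 →ₐ[K1] A).restrictScalars k)
    (fun i => (C (z i) : MvPolynomial ν K1)) (fun i => ∑ n, X n * C (φ n i)) j
  have h2 : ∀ x, ((aeval e : MvPolynomial ν K1 →ₐ[K1] A).restrictScalars k) x = aeval e x :=
    fun x => rfl
  simp only [h2] at h1
  unfold Hf
  rw [← h1]
  congr 1
  · funext i
    simp
  · funext i
    simp [map_sum]

/-- the linear map `(y, v) ↦ v C + y` -/
noncomputable def phiY {ι K1 : Type} [Field K1] (Y : Finset ι) (C : ι → K1) :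
    {i // i ∈ Y} ⊕ Unit → ι → K1 := by
  classical
  exact Sum.elim (fun b => (Pi.single b.1 1 : ι → K1)) (fun _ => C)

/-- the inclusion of the coordinate subspace -/
noncomputable def phiS {ι : Type} (K1 : Type) [Field K1] (S : Finset ι) :
    {i // i ∈ S} → ι → K1 := by
  classical
  exact fun b => (Pi.single b.1 1 : ι → K1)

/-- the equations of the lines through `z` in `F a = 0` with direction `v C + y` -/
noncomputable def HY {K K1 ι α : Type} [Field K] [Field K1] [Algebra K K1]
    (F : α → MvPolynomial ι K) (d m : α → ℕ) (Y : Finset ι) (z C : ι → K1)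
    (x : Σ a, Fin (m a + 1)) : MvPolynomial ({i // i ∈ Y} ⊕ Unit) K1 :=
  Hf (F x.1) z (phiY Y C) (d x.1 - x.2)

/-- the equations of the lines through `p` in `F a = 0` with direction in the coordinate subspace -/
noncomputable def HS {K ι α : Type} [Field K] (F : α → MvPolynomial ι K) (d m : α → ℕ)
    (S : Finset ι) (p : ι → K) (x : Σ a, Fin (m a + 1)) : MvPolynomial {i // i ∈ S} K :=
  Hf (F x.1) p (phiS K S) (if (x.2 : ℕ) = 0 then d x.1 else x.2)

/-- special families of lines: lines through `z` with direction `v C + y`, where `z` and `C` have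
coordinates in a subfield `K1` of transcendence degree `δ` -/
def TS {K : Type} [Field K] {ι α : Type} (F : α → MvPolynomial ι K) (d m : α → ℕ) (X Y : Finset ι)
    (p : ι → K) (n δ : ℕ) : Set (Set (MvPolynomial ι K) →₀ ℤ) :=
  {c | ∃ (κ : Type) (_ : Field κ) (_ : Algebra K κ) (K1 : IntermediateField K κ) (z C y : ι → κ)
    (v : κ), Algebra.trdeg K κ = n ∧ IsFG δ K K1 ∧ (∀ i, z i ∈ K1) ∧ (∀ i, C i ∈ K1) ∧
    LinearIndependent κ ![z, C] ∧ Supp X z ∧ (∀ i ∈ Y, C i = 0) ∧
    (∀ a, Vanish (F a) (cst κ p) z) ∧ (∀ a, ∀ j, j + m a < d a → co (F a) z C j = 0) ∧ Supp Y y ∧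
    (y ≠ 0 ∨ v ≠ 0) ∧ (∀ a, Vanish (F a) z (fun i => v * C i + y i)) ∧
    c = cyc K (gen z (fun i => v * C i + y i))}

/-- each monomial of `F` which is divisible by a variable of the block `i` has degree at most `m` in
the variables of the blocks `i + 1, …, s`; the block of the variable `i` is `b i` -/
def MixB {K ι : Type} [Field K] [Fintype ι] (F : MvPolynomial ι K) (b : ι → ℕ) (s m : ℕ) : Prop :=
  ∀ μ ∈ F.support, ∀ i, μ i ≠ 0 → ∑ i' with b i < b i' ∧ b i' ≤ s, μ i' ≤ m

/-- the sizes of the blocks -/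
structure Sizes {ι : Type} [Fintype ι] (b : ι → ℕ) (s m D : ℕ) : Prop where
  total : D + 1 ≤ Fintype.card ι
  zero : (m + 1) ^ s * D ≤ (Finset.univ.filter fun i => b i = 0).card
  pos : ∀ j, 1 ≤ j → j ≤ s → (m + 1) ^ s * D + 1 ≤ (Finset.univ.filter fun i => b i = j).card

/-- the hypotheses on the system of forms -/
structure Sys {K ι α : Type} [Field K] [Fintype ι] [Fintype α] (F : α → MvPolynomial ι K)
    (d : α → ℕ) (b : ι → ℕ) (s m : ℕ) : Prop where
  hom : ∀ a, (F a).IsHomogeneous (d a)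
  pos : ∀ a, 0 < d a
  mix : ∀ a, MixB (F a) b s m
  sizes : Sizes b s m (∑ a, d a)

/-- the degrees of the forms `HY` -/
def dY {α : Type} (d m : α → ℕ) (x : Σ a, Fin (m a + 1)) : ℕ := d x.1 - x.2

/-- the degrees of the forms `HS` -/
def dS {α : Type} (d m : α → ℕ) (x : Σ a, Fin (m a + 1)) : ℕ := if (x.2 : ℕ) = 0 then d x.1 else x.2

/-- the number of mixed factors -/
def mu {α : Type} (d : α → ℕ) (m : ℕ) (a : α) : ℕ := min m (d a - 1)

/-- the block `s + 1` -/
def bX {ι : Type} [Fintype ι] (b : ι → ℕ) (s : ℕ) : Finset ι := Finset.univ.filter fun i => b i = s + 1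

/-- the blocks `0, …, s` -/
def bY {ι : Type} [Fintype ι] (b : ι → ℕ) (s : ℕ) : Finset ι := Finset.univ.filter fun i => b i ≤ s

/-- the blocks `1, …, s` -/
def bS {ι : Type} [Fintype ι] (b : ι → ℕ) (s : ℕ) : Finset ι :=
  Finset.univ.filter fun i => 1 ≤ b i ∧ b i ≤ s

/-- the cones with the vertex `p` over points of dimension `n` in the coordinate subspace `S` belong
to `R` -/
def ConesIn {K ι α : Type} [Field K] (F : α → MvPolynomial ι K) (p : ι → K) (S : Finset ι) (n : ℕ)
    (R : AddSubgroup (Set (MvPolynomial ι K) →₀ ℤ)) : Prop :=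
  ∀ (κ : Type) [Field κ] [Algebra K κ], Algebra.trdeg K κ = n → ∀ w : ι → κ, Supp S w → w ≠ 0 →
    (∀ a, Vanish (F a) (cst κ p) w) → cyc K (gen (cst κ p) w) ∈ R

/-- `Λ 0, …, Λ s` span a linear subspace of `F a = 0`, `Λ j` has support in the block `j` -/
structure Flag {K ι α : Type} [Field K] (F : α → MvPolynomial ι K) (b : ι → ℕ) (s : ℕ)
    (Λ : ℕ → ι → K) : Prop where
  ne : ∀ j ≤ s, Λ j ≠ 0
  supp : ∀ j ≤ s, ∀ i, b i ≠ j → Λ j i = 0
  van : ∀ (a : α) (A : Type) [CommRing A] [Algebra K A] (c : ℕ → A),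
    aeval (fun i => ∑ j ∈ Finset.range (s + 1), c j * algebraMap K A (Λ j i)) (F a) = 0

end Pool.Agent.Z15P.Z15.W
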